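import Mathlib

/-! The identity of Gauss for the overpartitions, in a finite form, and its consequence modulo 16. -/

set_option autoImplicit false

namespace Pool.Agent.Run7.h580.NU

open PowerSeries Finset

/-- the inverse of `1 - X ^ a` -/
noncomputable def iv (a : ℕ) : ℤ⟦X⟧ := invOfUnit (1 - X ^ a) 1

lemma mul_iv {a : ℕ} (ha : 1 ≤ a) : (1 - X ^ a : ℤ⟦X⟧) * iv a = 1 := by
  unfold iv
  apply mul_invOfUnit
  have : a ≠ 0 := by omega
  simp [this]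

/-- the product of the `(1 + X ^ i) / (1 - X ^ i)`, `1 ≤ i ≤ n` -/
noncomputable def Pb (n : ℕ) : ℤ⟦X⟧ := ∏ i ∈ range n, ((1 + X ^ (i + 1)) * iv (i + 1))

/-- the sum of the `(-1) ^ i X ^ (i ^ 2)`, `1 ≤ i ≤ n` -/
noncomputable def A (n : ℕ) : ℤ⟦X⟧ :=
  ∑ i ∈ range n, C ((-1) ^ (i + 1)) * X ^ ((i + 1) * (i + 1))

/-- the right side of the finite identity -/
noncomputable def R (n : ℕ) : ℤ⟦X⟧ :=
  1 + ∑ s ∈ range n, (-1) ^ (s + 1) * 2 * Pb s * iv (s + 1) * X ^ ((s + 1) * (n + 1))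

lemma tele (n : ℕ) (k : ℕ) :
    ∑ s ∈ range k, (-1) ^ (s + 1) * 2 * Pb s * iv (s + 1) *
      ((1 - X ^ (n + 1)) * X ^ ((s + 1) * (n + 1 + 1)) - (1 + X ^ (n + 1)) * X ^ ((s + 1) * (n + 1)))
      = 2 * (X ^ (n + 1) - (-1) ^ k * Pb k * X ^ ((k + 1) * (n + 1))) := by
  induction k with
  | zero => simp [Pb]
  | succ k ih =>
    rw [sum_range_succ, ih]
    have h := mul_iv (a := k + 1) (by omega)
    have e1 : Pb (k + 1) = Pb k * ((1 + X ^ (k + 1)) * iv (k + 1)) := by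
      unfold Pb
      rw [prod_range_succ]
    rw [e1]
    have e2 : (X : ℤ⟦X⟧) ^ ((k + 1) * (n + 1 + 1)) = X ^ ((k + 1) * (n + 1)) * X ^ (k + 1) := by
      rw [← pow_add]; ring_nf
    have e3 : (X : ℤ⟦X⟧) ^ ((k + 1 + 1) * (n + 1)) = X ^ ((k + 1) * (n + 1)) * X ^ (n + 1) := by
      rw [← pow_add]; ring_nf
    rw [e2, e3]
    generalize (X : ℤ⟦X⟧) ^ ((k + 1) * (n + 1)) = a at *
    generalize (X : ℤ⟦X⟧) ^ (k + 1) = x at *
    generalize (X : ℤ⟦X⟧) ^ (n + 1) = w at *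
    generalize iv (k + 1) = i at *
    generalize Pb k = P at *
    linear_combination (2 * (-1) ^ k * P * a) * h

theorem gauss (n : ℕ) : (1 + 2 * A n) * Pb n = R n := by
  induction n with
  | zero => simp [A, Pb, R]
  | succ n ih =>
    have h := mul_iv (a := n + 1) (by omega)
    have hu : IsUnit (1 - X ^ (n + 1) : ℤ⟦X⟧) := IsUnit.of_mul_eq_one _ h
    apply hu.mul_left_cancel
    have t := tele n n
    have e1 : Pb (n + 1) = Pb n * ((1 + X ^ (n + 1)) * iv (n + 1)) := by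
      unfold Pb
      rw [prod_range_succ]
    have e2 : A (n + 1) = A n + C ((-1) ^ (n + 1)) * X ^ ((n + 1) * (n + 1)) := by
      unfold A
      rw [sum_range_succ]
    have e3 : R (n + 1) = 1 + (∑ s ∈ range n, (-1) ^ (s + 1) * 2 * Pb s * iv (s + 1) *
        X ^ ((s + 1) * (n + 1 + 1)) + (-1) ^ (n + 1) * 2 * Pb n * iv (n + 1) *
        X ^ ((n + 1) * (n + 1 + 1))) := by
      unfold R
      rw [sum_range_succ]
    have e4 : ∑ s ∈ range n, (-1) ^ (s + 1) * 2 * Pb s * iv (s + 1) *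
      ((1 - X ^ (n + 1)) * X ^ ((s + 1) * (n + 1 + 1)) - (1 + X ^ (n + 1)) * X ^ ((s + 1) * (n + 1)))
      = (1 - X ^ (n + 1)) * (∑ s ∈ range n, (-1) ^ (s + 1) * 2 * Pb s * iv (s + 1) *
        X ^ ((s + 1) * (n + 1 + 1))) - (1 + X ^ (n + 1)) * (R n - 1) := by
      unfold R
      rw [add_sub_cancel_left, mul_sum, mul_sum, ← sum_sub_distrib]
      refine sum_congr rfl fun s _ => ?_
      ring
    rw [e4] at t
    rw [e1, e2, e3]
    have e5 : (C ((-1 : ℤ) ^ (n + 1)) : ℤ⟦X⟧) = (-1) ^ (n + 1) := by simp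
    have e6 : (X : ℤ⟦X⟧) ^ ((n + 1) * (n + 1 + 1)) = X ^ ((n + 1) * (n + 1)) * X ^ (n + 1) := by
      rw [← pow_add]; ring_nf
    rw [e5, e6]
    rw [← ih] at t
    generalize (∑ s ∈ range n, (-1) ^ (s + 1) * 2 * Pb s * iv (s + 1) *
        (X : ℤ⟦X⟧) ^ ((s + 1) * (n + 1 + 1))) = S at *
    generalize (X : ℤ⟦X⟧) ^ ((n + 1) * (n + 1)) = a at *
    generalize (X : ℤ⟦X⟧) ^ (n + 1) = w at *
    generalize iv (n + 1) = i at *
    generalize Pb n = P at *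
    generalize A n = B at *
    have hp : ((-1 : ℤ⟦X⟧)) ^ (n + 1) = - (-1) ^ n := by rw [pow_succ]; ring
    rw [hp]
    generalize ((-1 : ℤ⟦X⟧)) ^ n = sg at *
    linear_combination ((1 + 2 * (B + -sg * a)) * P * (1 + w) + 2 * sg * P * a * w) * h - t

lemma R_eq (n : ℕ) : ∃ Q : ℤ⟦X⟧, R n = 1 + X ^ (n + 1) * Q := by
  refine ⟨∑ s ∈ range n, (-1) ^ (s + 1) * 2 * Pb s * iv (s + 1) * X ^ (s * (n + 1)), ?_⟩
  unfold R
  rw [mul_sum]
  congr 1
  refine sum_congr rfl fun s _ => ?_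
  have e : (X : ℤ⟦X⟧) ^ ((s + 1) * (n + 1)) = X ^ (n + 1) * X ^ (s * (n + 1)) := by
    rw [← pow_add]; ring_nf
  rw [e]
  ring

/-- the coefficients modulo 16 -/
theorem coeff_Pb {m n : ℕ} (hm : 1 ≤ m) (hmn : m ≤ n) : ∃ c : ℤ, coeff m (Pb n) =
    -2 * coeff m (A n) + 4 * coeff m (A n ^ 2) - 8 * coeff m (A n ^ 3) + 16 * c := by
  obtain ⟨Q, hQ⟩ := R_eq n
  have h := gauss n
  rw [hQ] at h
  have h2 : Pb n = 1 + (C (-2) * A n + (C 4 * A n ^ 2 + (C (-8) * A n ^ 3 + (C 16 * (A n ^ 4 * Pb n) +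
      X ^ (n + 1) * (Q * (1 - 2 * A n + 4 * A n ^ 2 - 8 * A n ^ 3)))))) := by
    have c1 : (C (-2 : ℤ) : ℤ⟦X⟧) = -2 := by simp
    have c2 : (C (4 : ℤ) : ℤ⟦X⟧) = 4 := by simp
    have c3 : (C (-8 : ℤ) : ℤ⟦X⟧) = -8 := by simp
    have c4 : (C (16 : ℤ) : ℤ⟦X⟧) = 16 := by simp
    rw [c1, c2, c3, c4]
    linear_combination (1 - 2 * A n + 4 * A n ^ 2 - 8 * A n ^ 3) * h
  refine ⟨coeff m (A n ^ 4 * Pb n), ?_⟩
  conv_lhs => rw [h2]
  rw [map_add, map_add, map_add, map_add, map_add, coeff_C_mul, coeff_C_mul, coeff_C_mul,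
    coeff_C_mul, coeff_one, if_neg (by omega), coeff_X_pow_mul', if_neg (by omega)]
  ring

lemma coeff_A {m : ℕ} (n : ℕ) (h : ∀ x : ℕ, 1 ≤ x → x * x ≠ m) : coeff m (A n) = 0 := by
  unfold A
  rw [map_sum]
  refine sum_eq_zero fun i _ => ?_
  rw [coeff_C_mul, coeff_X_pow, if_neg (fun e => h (i + 1) (by omega) e.symm), mul_zero]

lemma coeff_A2 {m : ℕ} (n : ℕ) (h : ∀ x y : ℕ, 1 ≤ x → 1 ≤ y → x * x + y * y ≠ m) :
    coeff m (A n ^ 2) = 0 := by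
  unfold A
  rw [pow_two, sum_mul_sum, map_sum]
  refine sum_eq_zero fun i _ => ?_
  rw [map_sum]
  refine sum_eq_zero fun j _ => ?_
  have e : (C ((-1 : ℤ) ^ (i + 1)) * X ^ ((i + 1) * (i + 1)) *
      (C ((-1 : ℤ) ^ (j + 1)) * X ^ ((j + 1) * (j + 1))) : ℤ⟦X⟧) =
      C ((-1 : ℤ) ^ (i + 1) * (-1 : ℤ) ^ (j + 1)) *
        X ^ ((i + 1) * (i + 1) + (j + 1) * (j + 1)) := by
    rw [map_mul, pow_add]; ring
  rw [e, coeff_C_mul, coeff_X_pow,
    if_neg (fun e => h (i + 1) (j + 1) (by omega) (by omega) e.symm), mul_zero]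

lemma coeff_A3 {m : ℕ} (n : ℕ) (h : ∀ x y : ℕ, 1 ≤ x → 1 ≤ y → x * x + 2 * (y * y) ≠ m) :
    2 ∣ coeff m (A n ^ 3) := by
  have hch : CharP (ZMod 2)⟦X⟧ 2 :=
    charP_of_injective_ringHom (f := (C : ZMod 2 →+* (ZMod 2)⟦X⟧)) C_injective 2
  have h1 : (PowerSeries.map (Int.castRingHom (ZMod 2))) (A n) =
      ∑ i ∈ range n, (X : (ZMod 2)⟦X⟧) ^ ((i + 1) * (i + 1)) := by
    unfold A
    rw [map_sum]
    refine sum_congr rfl fun i _ => ?_
    have e0 : (Int.castRingHom (ZMod 2)) ((-1) ^ (i + 1)) = 1 := by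
      rw [map_pow, map_neg, map_one]
      have : ((-1 : ZMod 2)) = 1 := by decide
      rw [this, one_pow]
    rw [map_mul, PowerSeries.map_C, e0, map_one, one_mul, map_pow, PowerSeries.map_X]
  have h2 : (PowerSeries.map (Int.castRingHom (ZMod 2))) (A n ^ 3) =
      ∑ i ∈ range n, ∑ j ∈ range n,
        (X : (ZMod 2)⟦X⟧) ^ ((i + 1) * (i + 1) + 2 * ((j + 1) * (j + 1))) := by
    rw [map_pow, h1, pow_succ', CharTwo.sum_sq, sum_mul_sum]
    refine sum_congr rfl fun i _ => sum_congr rfl fun j _ => ?_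
    rw [← pow_mul, ← pow_add]
    ring_nf
  have h3 : ((coeff m (A n ^ 3) : ℤ) : ZMod 2) = 0 := by
    have h4 : ((coeff m (A n ^ 3) : ℤ) : ZMod 2) =
        coeff m ((PowerSeries.map (Int.castRingHom (ZMod 2))) (A n ^ 3)) := by
      rw [PowerSeries.coeff_map]
      rfl
    rw [h4, h2, map_sum]
    refine sum_eq_zero fun i _ => ?_
    rw [map_sum]
    refine sum_eq_zero fun j _ => ?_
    rw [coeff_X_pow, if_neg (fun e => h (i + 1) (j + 1) (by omega) (by omega) e.symm)]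
  exact_mod_cast (ZMod.intCast_zmod_eq_zero_iff_dvd _ 2).1 h3

end Pool.Agent.Run7.h580.NU
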