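import Mathlib
import Pool.Agent.Run7.h580.NU.Gauss

/-! Partitions by the number of distinct part sizes and overpartitions. -/

set_option autoImplicit false

namespace Pool.Agent.Run7.h580.NU

open PowerSeries Finset
open scoped PowerSeries.WithPiTopology

/-- the generating function of the overpartitions -/
noncomputable def G : ℤ⟦X⟧ := Nat.Partition.genFun (fun _ _ => (2 : ℤ))

lemma coeff_G (n : ℕ) : coeff n G = ∑ p : n.Partition, (2 : ℤ) ^ p.parts.toFinset.card := by
  unfold G
  rw [Nat.Partition.coeff_genFun]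
  refine sum_congr rfl fun p _ => ?_
  rw [Finsupp.prod, prod_const, Multiset.toFinsupp_support]

lemma factor (a : ℕ) (ha : 1 ≤ a) :
    (1 : ℤ⟦X⟧) + ∑' j : ℕ, (2 : ℤ) • (X : ℤ⟦X⟧) ^ (a * (j + 1)) = (1 + X ^ a) * iv a := by
  have hs : Summable fun j : ℕ => (2 : ℤ) • (X : ℤ⟦X⟧) ^ (a * (j + 1)) :=
    Nat.Partition.summable_genFun_term' (fun _ _ => (2 : ℤ)) (by omega)
  have hF : (1 : ℤ⟦X⟧) + ∑' j : ℕ, (2 : ℤ) • (X : ℤ⟦X⟧) ^ (a * (j + 1)) =
      PowerSeries.mk (fun n => if n = 0 then 1 else if a ∣ n then 2 else 0) := by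
    ext n
    rw [coeff_mk, map_add, hs.map_tsum _ (WithPiTopology.continuous_coeff _ _), coeff_one]
    by_cases hn : n = 0
    · subst hn
      have : ∀ j : ℕ, coeff 0 ((2 : ℤ) • (X : ℤ⟦X⟧) ^ (a * (j + 1))) = 0 := by
        intro j
        rw [map_smul, coeff_X_pow, if_neg (by positivity), smul_zero]
      rw [tsum_congr this, tsum_zero]
      simp
    · rw [if_neg hn, if_neg hn, zero_add]
      by_cases hd : a ∣ n
      · rw [if_pos hd]
        obtain ⟨c, rfl⟩ := hd
        have hc : 1 ≤ c := by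
          rcases Nat.eq_zero_or_pos c with h | h
          · exact absurd (by rw [h, mul_zero]) hn
          · exact h
        rw [tsum_eq_single (c - 1)]
        · rw [map_smul, coeff_X_pow, if_pos (by rw [Nat.sub_add_cancel hc])]
          simp
        · intro j hj
          rw [map_smul, coeff_X_pow, if_neg, smul_zero]
          intro e
          have := Nat.eq_of_mul_eq_mul_left (by omega) e
          omega
      · rw [if_neg hd]
        have : ∀ j : ℕ, coeff n ((2 : ℤ) • (X : ℤ⟦X⟧) ^ (a * (j + 1))) = 0 := by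
          intro j
          rw [map_smul, coeff_X_pow, if_neg, smul_zero]
          intro e
          exact hd ⟨j + 1, e⟩
        rw [tsum_congr this, tsum_zero]
  rw [hF]
  have hu : IsUnit (1 - X ^ a : ℤ⟦X⟧) := IsUnit.of_mul_eq_one _ (mul_iv ha)
  apply hu.mul_left_cancel
  have e1 : (1 - X ^ a : ℤ⟦X⟧) * ((1 + X ^ a) * iv a) = 1 + X ^ a := by
    linear_combination (1 + X ^ a : ℤ⟦X⟧) * mul_iv ha
  rw [e1]
  ext n
  rw [sub_mul, one_mul, map_sub, coeff_mk, coeff_X_pow_mul', map_add, coeff_one, coeff_X_pow]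
  by_cases h1 : a ≤ n
  · rw [if_pos h1, coeff_mk]
    have hn : n ≠ 0 := by omega
    rw [if_neg hn, if_neg hn]
    by_cases h2 : n = a
    · subst h2
      simp
    · rw [if_neg h2]
      have h3 : n - a ≠ 0 := by omega
      rw [if_neg h3]
      have h4 : a ∣ n - a ↔ a ∣ n := by
        constructor
        · intro h
          have := Nat.dvd_add h (dvd_refl a)
          rwa [Nat.sub_add_cancel h1] at this
        · intro h
          exact Nat.dvd_sub h (dvd_refl a)
      simp [h4]
  · rw [if_neg h1]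
    have h2 : n ≠ a := by omega
    rw [if_neg h2]
    by_cases hn : n = 0
    · simp [hn]
    · rw [if_neg hn, if_neg hn, if_neg (fun h => h1 (Nat.le_of_dvd (by omega) h))]
      simp

lemma exists_coeff (m : ℕ) : ∃ n : ℕ, m ≤ n ∧ coeff m (Pb n) = coeff m G := by
  have h := (Nat.Partition.hasProd_genFun (fun _ _ => (2 : ℤ))).tendsto_prod_nat
  have h1 : Filter.Tendsto (fun n => Pb n) Filter.atTop (nhds G) := by
    have e : (fun n => ∏ i ∈ range n, ((1 : ℤ⟦X⟧) + ∑' j : ℕ,
        (2 : ℤ) • (X : ℤ⟦X⟧) ^ ((i + 1) * (j + 1)))) = fun n => Pb n := by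
      funext n
      unfold Pb
      exact prod_congr rfl fun i _ => factor (i + 1) (by omega)
    rw [← e]
    exact h
  have h2 := (WithPiTopology.tendsto_iff_coeff_tendsto _ _ _ _).1 h1 m
  have h3 : ∀ᶠ n in Filter.atTop, coeff m (Pb n) = coeff m G := by
    have := h2.eventually (eventually_nhds_iff.2 ⟨{coeff m G}, fun y hy => hy,
      isOpen_discrete _, rfl⟩)
    exact this
  obtain ⟨n, hn1, hn2⟩ := (h3.and (Filter.eventually_ge_atTop m)).exists
  exact ⟨n, hn2, hn1⟩

end Pool.Agent.Run7.h580.NU
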